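import Pool.Agent.Lib.FU.Over
import Pool.Agent.Lib.FU.Largest

/-!
# MP_f4acc6_ag: pull-back of regular singular bundles along dominant morphisms

Let `f : Y → X` be a dominant morphism of smooth connected varieties over an algebraically closed field
`k` of characteristic `p`, `K ⊂ L` the function fields, `D` the set of prime divisors of `X`, `P` the set
of divisorial valuations of `K` without centre on `X`. A stratified bundle on `X` gives an F-divided
vector space over `K` which extends over all `v ∈ D`; it is regular singular iff it is regular singular at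
all `v ∈ P`. The finite separable extensions `C` of `K` which are unramified at all `v ∈ D` and tame at
all `v ∈ P` are the function fields of the connected finite étale tamely ramified coverings `X'` of `X`
(purity, Kerz-Schmidt); those in `L` belong to the `X'` with `Y → X' → X`.

The theorem: there is a largest such `X'`, and all morphisms `f^* E → f^* E'` and all subobjects of
`f^* E` come from it (so the image of `Π^rs_Y → Π^rs_X` has finite index). If
`Π^tame_Y → Π^tame_X` is surjective, i.e. `X' = X`, then `f^*` is fully faithful and every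
subobject of `f^* E` is the pull-back of a unique subobject of `E`; by the criterion of Deligne-Milne the
homomorphism `Π^rs_Y → Π^rs_X` of the Tannaka groups is faithfully flat.
-/

set_option autoImplicit false

namespace Pool.Agent.Results.MP_f4acc6_ag.DominantMaps

open FD FU

universe u v₁ v₂

theorem result (p : ℕ) [Fact p.Prime] (K L : Type u) [Field K] [CharP K p] [Field L] [Algebra K L]
    -- `L` is a finitely generated field extension of `K`
    [Algebra.EssFiniteType K L]
    -- `D` and `P` are sets of discrete valuations of `K`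
    (D P : Set (K → ℤ)) (hD : ∀ v ∈ D, IsVal v ∧ HasDecomp p v)
    (hP : ∀ v ∈ P, IsVal v ∧ HasDecomp p v) :
    -- Among the finite separable extensions of `K` in `L` which are unramified at all `v ∈ D` and tame at
    -- all `v ∈ P` there is a largest one, `C`.
    ∃ C : IntermediateField K L, Good D P C ∧ (∀ C', Good D P C' → C' ≤ C) ∧
    -- Let `E`, `E'` be F-divided spaces over `K` which extend at all `v ∈ D` and are regular singular at
    -- all `v ∈ P`. Every morphism `w` of the pull-backs to `L` is defined over `C`: it maps the levels of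
    -- `E` into the levels of `C ⊗ E'`.
    (∀ (E E' : Type v₁) [AddCommGroup E] [Module K E] [AddCommGroup E'] [Module K E']
      (S₀ : FDiv p K E) (S₀' : FDiv p K E')
      (M M' : Type v₂) [AddCommGroup M] [Module L M] [Module K M] [IsScalarTower K L M]
      [AddCommGroup M'] [Module L M'] [Module K M'] [IsScalarTower K L M']
      (S : FDiv p L M) (S' : FDiv p L M') (ι : E →ₗ[K] M) (ι' : E' →ₗ[K] M'),
      IsPull S₀ S ι → IsPull S₀' S' ι' → (∀ v ∈ D, ExtendsAt v S₀ ∧ ExtendsAt v S₀') →
      (∀ v ∈ P, RegularAt v S₀ ∧ RegularAt v S₀') → ∀ w : M →ₗ[L] M', IsHor S S' w →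
        ∀ q, ∀ e ∈ S₀.F q, w (ι e) ∈ levC S₀' ι' C q) ∧
    -- Every F-divided subspace `W` of the pull-back `M` of `E` is defined over `C`: it is spanned by its
    -- intersection with each level of `C ⊗ E`.
    (∀ (E : Type v₁) [AddCommGroup E] [Module K E] (S₀ : FDiv p K E)
      (M : Type v₂) [AddCommGroup M] [Module L M] [Module K M] [IsScalarTower K L M]
      (S : FDiv p L M) (ι : E →ₗ[K] M), IsPull S₀ S ι → (∀ v ∈ D, ExtendsAt v S₀) →
      (∀ v ∈ P, RegularAt v S₀) → ∀ W : Submodule L M,
      (∀ q, W ≤ Submodule.span L {x | x ∈ W ∧ x ∈ S.F q}) →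
        ∀ q, W ≤ Submodule.span L {x | x ∈ W ∧ x ∈ levC S₀ ι C q}) ∧
    -- Suppose that `C = K`.
    (C = ⊥ →
    -- Then the pull-back is fully faithful on these F-divided spaces
    (∀ (E E' : Type v₁) [AddCommGroup E] [Module K E] [AddCommGroup E'] [Module K E']
      (S₀ : FDiv p K E) (S₀' : FDiv p K E')
      (M M' : Type v₂) [AddCommGroup M] [Module L M] [Module K M] [IsScalarTower K L M]
      [AddCommGroup M'] [Module L M'] [Module K M'] [IsScalarTower K L M']
      (S : FDiv p L M) (S' : FDiv p L M') (ι : E →ₗ[K] M) (ι' : E' →ₗ[K] M'),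
      IsPull S₀ S ι → IsPull S₀' S' ι' → (∀ v ∈ D, ExtendsAt v S₀ ∧ ExtendsAt v S₀') →
      (∀ v ∈ P, RegularAt v S₀ ∧ RegularAt v S₀') →
      (∀ u : E →ₗ[K] E', IsHor S₀ S₀' u →
        ∃! w : M →ₗ[L] M', IsHor S S' w ∧ ∀ x, ι' (u x) = w (ι x)) ∧
      (∀ w : M →ₗ[L] M', IsHor S S' w →
        ∃! u : E →ₗ[K] E', IsHor S₀ S₀' u ∧ ∀ x, ι' (u x) = w (ι x))) ∧
    -- and every F-divided subspace `W` of the pull-back `M` of `E` is the pull-back of a unique
    -- F-divided subspace `W₀` of `E`.
    (∀ (E : Type v₁) [AddCommGroup E] [Module K E] (S₀ : FDiv p K E)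
      (M : Type v₂) [AddCommGroup M] [Module L M] [Module K M] [IsScalarTower K L M]
      (S : FDiv p L M) (ι : E →ₗ[K] M), IsPull S₀ S ι → (∀ v ∈ D, ExtendsAt v S₀) →
      (∀ v ∈ P, RegularAt v S₀) → ∀ W : Submodule L M,
      (∀ q, W ≤ Submodule.span L {x | x ∈ W ∧ x ∈ S.F q}) →
        ∃! W₀ : Submodule K E, (∀ q, W₀ ≤ Submodule.span K {x | x ∈ W₀ ∧ x ∈ S₀.F q}) ∧
          W = Submodule.span L (ι '' (W₀ : Set E)))) := by
  have hcL : CharP L p := charP_of_injective_algebraMap (algebraMap K L).injective p
  obtain ⟨C, hC, hle⟩ := exists_largest (K := K) (L := L) D P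
  refine ⟨C, hC, hle, ?_, ?_, ?_⟩
  · intro E E' _ _ _ _ S₀ S₀' M M' _ _ _ _ _ _ _ _ S S' ι ι' h h' he hr w hw q e heq
    obtain ⟨C', hC', h1⟩ := hom_over h h' hD hP he hr w hw
    exact levC_mono S₀' ι' (hle C' hC') q (h1 q e heq)
  · intro E _ _ S₀ M _ _ _ _ S ι h he hr W hW q
    obtain ⟨C', hC', h1⟩ := sub_over h hD hP he hr W hW
    exact (h1 q).trans (Submodule.span_mono fun x hx =>
      ⟨hx.1, levC_mono S₀ ι (hle C' hC') q hx.2⟩)
  · intro htame
    have hN : ∀ C : Subalgebra K L, Module.Finite K C → Algebra.FormallyUnramified K C →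
        (∀ v ∈ D, UnramAt K C v) → (∀ v ∈ P, TameAt K C v) → C = ⊥ := by
      intro C₁ h1 h2 h3 h4
      obtain ⟨C', hC', hg⟩ := exists_good h1 h2 h3 h4
      have h5 : C' = ⊥ := by
        rw [eq_bot_iff, ← htame]
        exact hle C' hg
      rw [← hC', h5, IntermediateField.bot_toSubalgebra]
    refine ⟨?_, ?_⟩
    · intro E E' _ _ _ _ S₀ S₀' M M' _ _ _ _ _ _ _ _ S S' ι ι' h h' he hr
      exact ⟨fun u hu => FD.exists_pull_hom h h' u hu, fun w hw =>
        hom_descent h h' hD hP hN he hr w hw⟩
    · intro E _ _ S₀ M _ _ _ _ S ι h he hr W hW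
      exact sub_descent h specREG specEXT specPUL specPLU specCRA hD hP hN he hr W hW

end Pool.Agent.Results.MP_f4acc6_ag.DominantMaps
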