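import Pool.Agent.Lib.HI.Reg

/-!
# MP_f4acc6_ag: the generalised Gieseker conjecture for the projections `X × A^1 → X`

`X = Spec A` is an arbitrary affine scheme of finite type over `k`. Pull-back along `X × A^1 → X` is
an equivalence between stratified bundles on `X` and those stratified bundles on `X × A^1` which are
regular singular along `X × {∞}` in `X × P^1`.

The definitions (`IsDiff`, `D`, `Strat`, `IsHor`, `IsPullback`, `chartInf`, `IsLog`,
`RegularAtInfinity`) are in `Pool/Agent/Lib/HI/Defs.lean`.
-/

set_option autoImplicit false

namespace Pool.Agent.Results.MP_f4acc6_ag.HomotopyInvariance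

open HI Polynomial

universe u v

/-- A stratified bundle on `Spec B`: a finitely generated projective `B`-module with a left
`D_{B/k}`-module structure extending the module structure. -/
structure Bun (k : Type v) [CommRing k] (B : Type u) [CommRing B] [Algebra k B] where
  /-- the module -/
  M : Type u
  /-- its addition -/
  [grp : AddCommGroup M]
  /-- its module structure -/
  [mod : Module B M]
  /-- it is finitely generated -/
  [fin : Module.Finite B M]
  /-- it is projective (a vector bundle) -/
  [prj : Module.Projective B M]
  /-- the action of differential operators -/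
  strat : Strat k B M

attribute [instance] Bun.grp Bun.mod Bun.fin Bun.prj

variable {k : Type v} [CommRing k] {A : Type u} [CommRing A] [Algebra k A]

/-- `F` is a pull-back of `E` along `X × A^1 → X`, by means of the map `ι` (a map of `A`-modules,
where `A` acts on `F.M` through `A ⊂ A[x]`). -/
structure PullbackData (E : Bun k A) (F : Bun k A[X]) where
  /-- `A` acts on the module of `F` -/
  [modA : Module A F.M]
  /-- through `A[x]` -/
  [tower : IsScalarTower A A[X] F.M]
  /-- the map `E → F` -/
  ι : E.M →ₗ[A] F.M
  /-- it exhibits `F` as the pull-back of `E` -/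
  isPullback : IsPullback E.strat F.strat ι

/-- Pull-back along `X × A^1 → X` is an equivalence from stratified bundles on `X` to the stratified
bundles on `X × A^1` that are regular singular along `X × {∞}`: every `E` has a pull-back, which is
regular singular along `X × {∞}`; morphisms between pull-backs are the same as morphisms downstairs;
and every stratified bundle on `X × A^1` which is regular singular along `X × {∞}` is a pull-back. -/
theorem result (k : Type v) [CommRing k] (A : Type u) [CommRing A] [Algebra k A]
    [Algebra.FiniteType k A] :
    (∀ E : Bun k A, ∃ F : Bun k A[X], Nonempty (PullbackData E F) ∧ RegularAtInfinity F.strat) ∧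
    (∀ (E E' : Bun k A) (F F' : Bun k A[X]) (d : PullbackData E F) (d' : PullbackData E' F'),
      (∀ u : E.M →ₗ[A] E'.M, IsHor E.strat E'.strat u →
        ∃! v : F.M →ₗ[A[X]] F'.M, IsHor F.strat F'.strat v ∧ ∀ e, v (d.ι e) = d'.ι (u e)) ∧
      (∀ v : F.M →ₗ[A[X]] F'.M, IsHor F.strat F'.strat v →
        ∃! u : E.M →ₗ[A] E'.M, IsHor E.strat E'.strat u ∧ ∀ e, v (d.ι e) = d'.ι (u e))) ∧
    (∀ F : Bun k A[X], RegularAtInfinity F.strat → ∃ E : Bun k A, Nonempty (PullbackData E F)) := by
  refine ⟨?_, ?_, ?_⟩
  · intro E
    obtain ⟨T, hT, hreg⟩ := exists_pullback E.strat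
    exact ⟨{ M := TensorProduct A A[X] E.M, strat := T },
      ⟨{ ι := TensorProduct.mk A A[X] E.M 1, isPullback := hT }⟩, hreg⟩
  · intro E E' F F' d d'
    let _ := d.modA
    let _ := d'.modA
    have := d.tower
    have := d'.tower
    exact ⟨fun u hu => exists_extension d.isPullback d'.isPullback u hu,
      fun v hv => exists_descent d.isPullback d'.isPullback v hv⟩
  · intro F hF
    let _ : Module A F.M := Module.compHom F.M (Polynomial.C : A →+* A[X])
    have : IsScalarTower A A[X] F.M := by
      refine ⟨fun a f m => ?_⟩
      show (a • f) • m = (C a : A[X]) • f • m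
      rw [smul_smul, Polynomial.smul_eq_C_mul]
    have hnil := nilpotent_of_regular F.strat hF
    have hpb := isPullback_hor F.strat hnil
    obtain ⟨h1, h2⟩ := finite_projective_of_isBaseChange hpb.1
    exact ⟨{ M := hor F.strat, strat := horStrat F.strat },
      ⟨{ ι := (hor F.strat).subtype, isPullback := hpb }⟩⟩

end Pool.Agent.Results.MP_f4acc6_ag.HomotopyInvariance
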