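import Pool.Agent.Lib.FR.Main

/-!
# MP_f4acc6_ag: projections `X × Z → X`, where `Z` contains an open torus

`k` is an algebraically closed field of characteristic `p`. `X = Spec A` is ANY affine scheme over `k`
with `A` Noetherian and reduced. `Z = Spec B` is a normal affine `k`-scheme containing the torus
`G_m^n`; `v i`, `i ∈ I`, are the orders of vanishing along the components of the complement. More
generally `B ⊂ k[x_1^±1, ..., x_n^±1]` is any subring with the same fraction field which is defined by
conditions `v i h ≥ 0` for finitely many discrete valuations. It is assumed that no Kummer covering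
`y^ℓ = x^a` of the torus of prime degree `ℓ ≠ p` is unramified along all these components. Then the
pull-back of F-divided bundles (= stratified bundles, by Katz, in the smooth case) along the projection
`X × Z → X` is an equivalence onto the F-divided bundles on `X × Z` which are regular singular along all
`X × D`, `D` a boundary divisor of `(P^1)^n`.
-/

set_option autoImplicit false

namespace Pool.Agent.Results.MP_f4acc6_ag.ProductProjection

open FD FR TensorProduct

universe u u₁ u₂ v₁ v₂

theorem result (p : ℕ) [Fact p.Prime] (k : Type u) [Field k] [CharP k p] [IsAlgClosed k]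
    -- `X = Spec A`
    (A : Type u₁) [CommRing A] [Nontrivial A] [IsReduced A] [IsNoetherianRing A] [Algebra k A]
    -- `Z = Spec B` contains the torus: `B ⊂ k[x^±1]`, with the same fraction field
    (B : Type u) [CommRing B] [IsDomain B] [Algebra k B] (n : ℕ)
    [Algebra B (Torus k n)] [IsScalarTower k B (Torus k n)]
    (hinj : Function.Injective (algebraMap B (Torus k n)))
    (hfrac : ∀ h : Torus k n, ∃ b c : B, b ≠ 0 ∧
      algebraMap B (Torus k n) b * h = algebraMap B (Torus k n) c)
    -- `Z` is normal: `B` consists of the Laurent polynomials whose orders along the components of the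
    -- complement of the torus are not negative
    (I : Type) [Finite I] (v : I → Torus k n → ℤ) (hv : ∀ i, IsVal (v i))
    (hB : ∀ h : Torus k n, h ≠ 0 →
      ((∃ b : B, algebraMap B (Torus k n) b = h) ↔ ∀ i, 0 ≤ v i h))
    -- if the divisor of the monomial `x^a` on `Z` is divisible by `ℓ`, then `x^a` is an `ℓ`-th power
    (hKummer : ∀ ℓ : ℕ, ℓ.Prime → ℓ ≠ p → ∀ a : Fin n → ℤ, (∀ i, (ℓ : ℤ) ∣ v i (mon k a)) →
      ∃ b : Fin n → ℤ, a = (ℓ : ℤ) • b)
    -- `X × Z = Spec R`, `R = A ⊗ B`, with the natural map `R → A[x^±1]`
    (R : Type u₂) [CommRing R] [Algebra k R] [Algebra A R] [IsScalarTower k A R] [Algebra B R]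
    [IsScalarTower k B R] [Algebra.IsPushout k A B R]
    [Algebra R (Torus A n)] [IsScalarTower A R (Torus A n)]
    (hR : ∀ b : B, algebraMap R (Torus A n) (algebraMap B R b)
      = AddMonoidAlgebra.mapRingHom (Fin n → ℤ) (algebraMap k A) (algebraMap B (Torus k n) b)) :
    -- every F-divided bundle on `X` has a pull-back to `X × Z`
    (∀ (E : Type v₁) [AddCommGroup E] [Module A E] (S₀ : FDiv p A E),
      ∃ S : FDiv p R (R ⊗[A] E), IsPull S₀ S (TensorProduct.mk A R E 1)) ∧
    -- pull-backs are regular singular along all `X × D`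
    (∀ (E : Type v₁) [AddCommGroup E] [Module A E] (S₀ : FDiv p A E)
      (M : Type v₂) [AddCommGroup M] [Module R M] [Module A M] [IsScalarTower A R M]
      (S : FDiv p R M) (ι : E →ₗ[A] M), IsPull S₀ S ι → RegularOver A n S) ∧
    -- the morphisms `E → E'` on `X` are the same as the morphisms of the pull-backs `M → M'`
    (∀ (E E' : Type v₁) [AddCommGroup E] [Module A E] [AddCommGroup E'] [Module A E']
      (S₀ : FDiv p A E) (S₀' : FDiv p A E')
      (M M' : Type v₂) [AddCommGroup M] [Module R M] [Module A M] [IsScalarTower A R M]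
      [AddCommGroup M'] [Module R M'] [Module A M'] [IsScalarTower A R M']
      (S : FDiv p R M) (S' : FDiv p R M') (ι : E →ₗ[A] M) (ι' : E' →ₗ[A] M'),
      IsPull S₀ S ι → IsPull S₀' S' ι' →
      (∀ u : E →ₗ[A] E', IsHor S₀ S₀' u →
        ∃! w : M →ₗ[R] M', IsHor S S' w ∧ ∀ x, ι' (u x) = w (ι x)) ∧
      (∀ w : M →ₗ[R] M', IsHor S S' w →
        ∃! u : E →ₗ[A] E', IsHor S₀ S₀' u ∧ ∀ x, ι' (u x) = w (ι x))) ∧
    -- every F-divided bundle on `X × Z` regular singular along all `X × D` is a pull-back from `X`
    (∀ (M : Type v₂) [AddCommGroup M] [Module R M] [Module A M] [IsScalarTower A R M]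
      (S : FDiv p R M), RegularOver A n S →
      ∃ (E : Submodule A M) (S₀ : FDiv p A E), IsPull S₀ S E.subtype) := by
  have hntR : Nontrivial R := (algebraMap R (Torus A n)).domain_nontrivial
  have hcA : CharP A p := charP_of_injective_algebraMap (algebraMap k A).injective p
  have hcB : CharP B p := charP_of_injective_algebraMap (algebraMap k B).injective p
  have hcR : CharP R p := charP_of_injective_algebraMap (algebraMap k R).injective p
  obtain ⟨D⟩ := exists_data (k := k) (A := A) (B := B) (R := R) (n := n) hR
  refine ⟨?_, ?_, ?_, ?_⟩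
  · intro E _ _ S₀
    exact FR.exists_pull S₀ (TensorProduct.isBaseChange A E R)
  · intro E _ _ S₀ M _ _ _ _ S ι h
    obtain ⟨T, hT⟩ := FR.exists_pull S (TensorProduct.isBaseChange R M (Torus A n))
    exact ⟨T, hT, regular_of_pull h hT⟩
  · intro E E' _ _ _ _ S₀ S₀' M M' _ _ _ _ _ _ _ _ S S' ι ι' h h'
    exact ⟨fun u hu => exists_pull_hom h h' u hu,
      fun w hw => FR.exists_unique_hom D h h' hinj w hw⟩
  · rintro M _ _ _ _ S ⟨T, hT, hreg⟩
    exact FR.exists_descent D hinj hfrac hv hB hKummer hT hreg

end Pool.Agent.Results.MP_f4acc6_ag.ProductProjection
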