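import Pool.Agent.Lib.FD.Main

/-!
# MP_f4acc6_ag: morphisms between factorial affine varieties that contain dense open tori

`k` is an algebraically closed field of characteristic `p`, `X = Spec A` and `Y = Spec B` are factorial
affine `k`-schemes (`A`, `B` unique factorization domains) which contain open tori `G_m^m` and `G_m^n`
(complements of principal divisors), and `Y → X` is ANY morphism of `k`-schemes such that
`O(X)^*/ℓ → O(Y)^*/ℓ` is bijective for all prime numbers `ℓ ≠ p`. Then the pull-back of regular singular
F-divided bundles (= stratified bundles, by Katz, if `X`, `Y` are smooth) is an equivalence of categories.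
-/

set_option autoImplicit false

namespace Pool.Agent.Results.MP_f4acc6_ag.TorusCharts

open FD

universe u u₁ u₂ v₁ v₂

theorem result (p : ℕ) [Fact p.Prime] (k : Type u) [Field k] [CharP k p] [IsAlgClosed k]
    (A : Type u₁) [CommRing A] [IsDomain A] [UniqueFactorizationMonoid A] [Algebra k A] (m : ℕ)
    [Algebra A (Torus k m)] [IsScalarTower k A (Torus k m)] (f : A)
    [IsLocalization.Away f (Torus k m)]
    (B : Type u₂) [CommRing B] [IsDomain B] [UniqueFactorizationMonoid B] [Algebra k B] (n : ℕ)
    [Algebra B (Torus k n)] [IsScalarTower k B (Torus k n)] (g : B)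
    [IsLocalization.Away g (Torus k n)]
    [Algebra A B] [IsScalarTower k A B] (hunits : UnitsCond p A B) :
    -- every regular singular F-divided bundle on `X` has a pull-back
    (∀ (M : Type v₁) [AddCommGroup M] [Module A M] (S : FDiv p A M), Regular k m S →
      ∃ T : FDiv p B (TensorProduct A B M), IsPull S T (TensorProduct.mk A B M 1)) ∧
    -- pull-backs are regular singular
    (∀ (M : Type v₁) [AddCommGroup M] [Module A M] (S : FDiv p A M)
      (N : Type v₂) [AddCommGroup N] [Module B N] [Module A N] [IsScalarTower A B N]
      (T : FDiv p B N) (ι : M →ₗ[A] N), Regular k m S → IsPull S T ι → Regular k n T) ∧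
    -- the morphisms `M → M'` on `X` are the same as the morphisms of the pull-backs `N → N'`
    (∀ (M M' : Type v₁) [AddCommGroup M] [Module A M] [AddCommGroup M'] [Module A M']
      (S : FDiv p A M) (S' : FDiv p A M')
      (N N' : Type v₂) [AddCommGroup N] [Module B N] [Module A N] [IsScalarTower A B N]
      [AddCommGroup N'] [Module B N'] [Module A N'] [IsScalarTower A B N']
      (T : FDiv p B N) (T' : FDiv p B N') (ι : M →ₗ[A] N) (ι' : M' →ₗ[A] N'),
      Regular k m S → Regular k m S' → IsPull S T ι → IsPull S' T' ι' →
      (∀ u : M →ₗ[A] M', IsHor S S' u →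
        ∃! v : N →ₗ[B] N', IsHor T T' v ∧ ∀ x, ι' (u x) = v (ι x)) ∧
      (∀ v : N →ₗ[B] N', IsHor T T' v →
        ∃! u : M →ₗ[A] M', IsHor S S' u ∧ ∀ x, ι' (u x) = v (ι x))) ∧
    -- every regular singular F-divided bundle on `Y` is a pull-back from `X`
    (∀ (N : Type v₂) [AddCommGroup N] [Module B N] [Module A N] [IsScalarTower A B N]
      (T : FDiv p B N), Regular k n T →
      ∃ (d : ℕ) (S : FDiv p A (Fin d → A)) (ι : (Fin d → A) →ₗ[A] N),
        Regular k m S ∧ IsPull S T ι) := by
  have hntA : Nontrivial A := inferInstance
  have hntB : Nontrivial B := inferInstance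
  have hcA : CharP A p := charP_of_injective_algebraMap (algebraMap k A).injective p
  have hcB : CharP B p := charP_of_injective_algebraMap (algebraMap k B).injective p
  refine ⟨?_, ?_, ?_, ?_⟩
  · intro M _ _ S hS
    exact exists_pull f hS
  · intro M _ _ S N _ _ _ _ T ι hS h
    exact regular_pull (n := n) f hS h
  · intro M M' _ _ _ _ S S' N N' _ _ _ _ _ _ _ _ T T' ι ι' hS hS' h h'
    exact ⟨fun u hu => exists_pull_hom h h' u hu,
      fun v hv => exists_unique_hom (n := n) f g hunits hS hS' h h' v hv⟩
  · intro N _ _ _ _ T hT
    exact exists_descent f g hunits hT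

end Pool.Agent.Results.MP_f4acc6_ag.TorusCharts
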